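import Pool.Agent.Helper74.CO.Goals

/-!
# Project CO (MP_c5396e_co), packet GSOL
-/

set_option autoImplicit false

namespace Pool.Agent.Helper20.CO

open Finset Pool.Agent.Helper74.CO

/-- The inequalities of the filter turn a congruence into an equality. -/
theorem eq_of_cong {q : ℕ} (hq : 3 ≤ q) {i j k : ℕ} {u : ℤ} (hk : (k : ℤ) < (q : ℤ) - 1)
    (hd : ((q : ℤ) - 1) ∣ ((i : ℤ) + j) - (u + k))
    (h0 : 0 ≤ (i : ℝ) / ((q : ℝ) - 1) + (j : ℝ) / ((q : ℝ) - 1) - u / ((q : ℝ) - 1))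
    (h1 : (i : ℝ) / ((q : ℝ) - 1) + (j : ℝ) / ((q : ℝ) - 1) - u / ((q : ℝ) - 1) < 1) :
    (i : ℤ) + j - u = k := by
  have hq' : (0 : ℝ) < (q : ℝ) - 1 := by
    have : (3 : ℝ) ≤ q := by exact_mod_cast hq
    linarith
  have he : (i : ℝ) / ((q : ℝ) - 1) + (j : ℝ) / ((q : ℝ) - 1) - u / ((q : ℝ) - 1) =
      ((i : ℝ) + j - u) / ((q : ℝ) - 1) := by ring
  rw [he] at h0 h1
  rw [div_lt_one hq'] at h1
  have h0' : 0 ≤ (i : ℝ) + j - u := by
    by_contra hc
    push Not at hc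
    have := div_neg_of_neg_of_pos hc hq'
    linarith
  have h0z : 0 ≤ (i : ℤ) + j - u := by exact_mod_cast h0'
  have h1z : (i : ℤ) + j - u < (q : ℤ) - 1 := by exact_mod_cast h1
  obtain ⟨c, hc⟩ := hd
  have hqz : (0 : ℤ) < (q : ℤ) - 1 := by omega
  have hc1 : c < 1 := by
    by_contra hcc
    push Not at hcc
    nlinarith
  have hc2 : -1 < c := by
    by_contra hcc
    push Not at hcc
    nlinarith
  have : c = 0 := by omega
  rw [this, mul_zero] at hc
  linarith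

/-- GSOL. -/
theorem t_GSOL (hI : IND) : GSOL := by
  intro F _ _ _ α β u v hq hα hβ hne
  classical
  obtain ⟨hα0, -, hαi, hαe⟩ := hI F α hα hq
  obtain ⟨hβ0, -, hβi, hβe⟩ := hI F β hβ hq
  set e : F := α ^ u with he
  set f : F := β ^ v with hf
  have he0 : e ≠ 0 := zpow_ne_zero u hα0
  have hf0 : f ≠ 0 := zpow_ne_zero v hβ0
  let w : F → ℤ × ℤ := fun x => ((ind α x : ℤ), (ind β (1 - x) : ℤ))
  have hw : ∀ x : F, x ≠ 0 → x ≠ 1 → w x ∈ Ga α β := by
    intro x hx0 hx1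
    have h1x : 1 - x ≠ 0 := sub_ne_zero.2 (Ne.symm hx1)
    obtain ⟨ha, ha'⟩ := hαi x hx0
    obtain ⟨hb, hb'⟩ := hβi (1 - x) h1x
    have ha1 : ind α x ≠ 0 := by
      intro h
      rw [h, pow_zero] at ha
      exact hx1 ha.symm
    have hb1 : ind β (1 - x) ≠ 0 := by
      intro h
      rw [h, pow_zero] at hb
      apply hx0
      have : x = 1 - (1 - x) := by ring
      rw [this, ← hb, sub_self]
    unfold Ga
    rw [mem_filter, mem_product, mem_Icc, mem_Icc]
    refine ⟨⟨⟨?_, ?_⟩, ⟨?_, ?_⟩⟩, ?_⟩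
    · change (1 : ℤ) ≤ (ind α x : ℤ)
      omega
    · change (ind α x : ℤ) ≤ _
      omega
    · change (1 : ℤ) ≤ (ind β (1 - x) : ℤ)
      omega
    · change (ind β (1 - x) : ℤ) ≤ _
      omega
    · change α ^ (ind α x : ℤ) + β ^ (ind β (1 - x) : ℤ) = 1
      rw [zpow_natCast, zpow_natCast, ha, hb]
      ring
  let Φ : F → (ℤ × ℤ) × (ℤ × ℤ) := fun x => (w x, w (Mg e f x))
  refine card_le_card_of_injOn Φ ?_ ?_
  · intro x hx
    rw [mem_coe, mem_filter] at hx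
    obtain ⟨hX, ⟨h1, h2⟩, h3, h4⟩ := hx
    unfold Xg at hX
    rw [mem_filter] at hX
    obtain ⟨-, hx0, hx1, hxf, hxe, hD⟩ := hX
    have hD' : (e + f) * x - e ≠ 0 := sub_ne_zero.2 hD
    have hxf' : x - (1 - f) ≠ 0 := sub_ne_zero.2 hxf
    have hxe' : x - e ≠ 0 := sub_ne_zero.2 hxe
    have h1x : 1 - x ≠ 0 := sub_ne_zero.2 (Ne.symm hx1)
    have hyd : Mg e f x = e * (x - (1 - f)) / ((e + f) * x - e) := rfl
    set y : F := Mg e f x with hy
    have hy0 : y ≠ 0 := by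
      rw [hyd]
      exact div_ne_zero (mul_ne_zero he0 hxf') hD'
    have h1y : 1 - y = f * (x - e) / ((e + f) * x - e) := by
      rw [hyd, eq_div_iff hD', sub_mul, one_mul, div_mul_cancel₀ _ hD']
      ring
    have h1y0 : 1 - y ≠ 0 := by
      rw [h1y]
      exact div_ne_zero (mul_ne_zero hf0 hxe') hD'
    have hy1 : y ≠ 1 := fun h => h1y0 (by rw [h, sub_self])
    set z : F := x * y / e with hz
    have hz0 : z ≠ 0 := div_ne_zero (mul_ne_zero hx0 hy0) he0
    have hz' : z = x * (x - (1 - f)) / ((e + f) * x - e) := by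
      rw [hz, hyd, div_eq_iff he0]
      ring
    have h1z : 1 - z = (1 - x) * (x - e) / ((e + f) * x - e) := by
      rw [hz', eq_div_iff hD', sub_mul, one_mul, div_mul_cancel₀ _ hD']
      ring
    have h1z0 : 1 - z ≠ 0 := by
      rw [h1z]
      exact div_ne_zero (mul_ne_zero h1x hxe') hD'
    have hz1 : z ≠ 1 := fun h => h1z0 (by rw [h, sub_self])
    have hmul1 : x * y = e * z := by
      rw [hz]
      field_simp
    have hmul2 : (1 - x) * (1 - y) = f * (1 - z) := by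
      rw [h1z, h1y]
      ring
    obtain ⟨hax, hax'⟩ := hαi x hx0
    obtain ⟨hay, hay'⟩ := hαi y hy0
    obtain ⟨haz, haz'⟩ := hαi z hz0
    obtain ⟨hbx, hbx'⟩ := hβi (1 - x) h1x
    obtain ⟨hby, hby'⟩ := hβi (1 - y) h1y0
    obtain ⟨hbz, hbz'⟩ := hβi (1 - z) h1z0
    have hd1 : ((Fintype.card F : ℤ) - 1) ∣ ((ind α x : ℤ) + ind α y) - (u + ind α z) := by
      rw [← hαe, zpow_add₀ hα0, zpow_add₀ hα0, zpow_natCast, zpow_natCast, zpow_natCast, hax,
        hay, haz, ← he, hmul1]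
    have hd2 : ((Fintype.card F : ℤ) - 1) ∣
        ((ind β (1 - x) : ℤ) + ind β (1 - y)) - (v + ind β (1 - z)) := by
      rw [← hβe, zpow_add₀ hβ0, zpow_add₀ hβ0, zpow_natCast, zpow_natCast, zpow_natCast, hbx,
        hby, hbz, ← hf, hmul2]
    have e1 := eq_of_cong hq haz' hd1 h1 h2
    have e2 := eq_of_cong hq hbz' hd2 h3 h4
    rw [mem_coe]
    unfold sols
    rw [mem_filter, mem_product]
    refine ⟨⟨hw x hx0 hx1, hw y hy0 hy1⟩, ?_⟩
    have : (Φ x).1 + (Φ x).2 - (u, v) = w z := by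
      apply Prod.ext
      · exact e1
      · exact e2
    rw [this]
    exact hw z hz0 hz1
  · intro x hx x' hx' h
    rw [mem_coe, mem_filter] at hx hx'
    have hX := hx.1
    have hX' := hx'.1
    unfold Xg at hX hX'
    rw [mem_filter] at hX hX'
    have h1 : (ind α x : ℤ) = ind α x' := congrArg (fun t => t.1.1) h
    have h2 : ind α x = ind α x' := by exact_mod_cast h1
    rw [← (hαi x hX.2.1).1, ← (hαi x' hX'.2.1).1, h2]

end Pool.Agent.Helper20.CO
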